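import Mathlib
import Pool.Agent.K1H77.DW.Homotopy
import Pool.Agent.K1H77.DW.Unique

/-!
# MP_8f97c4_co, Q1: the flip complex `X_n` of double wiring diagrams is simply connected

For every `n`, the flip graph `G_n` (`FG n`) of double wiring diagrams on `n` strands is connected,
every closed walk of `G_n` is null-homotopic in the complex `X_n` (edge-path homotopy `Hty`), and
every closed walk is, up to insertion and deletion of backtracks (`GHty`), a product of conjugates
of cycles of length 4, cycles of length 5 and cycles of length 8 all of whose edges are Coxeter
moves of one colour (`ProdConj`, `IsCell`).  This answers Q1 positively.

`G_n` is treated as a simple graph on the commutation classes.  This is the graph of the problem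
(one edge for each flip): a flip always joins two different classes (`flip_ne`, used in the
definition of `FG`), and the last clause of the theorem says that two flips which join the same two
classes are the same flip (same letters, same numbers of occurrences of these letters before them).

Proof.  A double wiring diagram is a reduced word of `(w₀, w₀)` in `S_n × S_n`.  For an arbitrary
group `Γ`, a `Γ`-valued connection on the reduced words of an element `v` which is trivial along
squares and along the cycles of rank three (types `A_1^3`, `A_2 × A_1`, `A_3`) has a potential
(`exists_potential`, induction on the length of `v`; this is the word form of the theorem of Tits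
and Ronan on self-homotopies of reduced words, proved here from scratch).  After contraction of the
commutations these cycles become backtracks, 4-cycles, 5-cycles (type `A_2 × A_1` with one mixed
pair) and 8-cycles of Coxeter moves of one colour (type `A_3`); that the cycles of length 5 and 8
are honest cycles is checked with the restrictions of words to two non-commuting letters.  The
connection given by the group of closed walks up to homotopy then has a potential, so this group
is trivial.
-/

set_option autoImplicit false

namespace Pool.Agent.Results.MP_8f97c4_co.FlipComplexSimplyConnected

open Pool.Agent.K1H77.DW SimpleGraph

theorem result (n : ℕ) :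
    (FG n).Connected ∧
    (∀ (A : Vx n) (w : (FG n).Walk A A), Hty w Walk.nil) ∧
    (∀ (A : Vx n) (w : (FG n).Walk A A), ∃ w' : (FG n).Walk A A, ProdConj w' ∧ GHty w w') ∧
    (∀ (u u' : List Lt) (x y x' y' : Lt) (a b a' b' : List Lt), FlipAt u x y a b →
      FlipAt u' x' y' a' b' → cls a = cls a' → cls b = cls b' →
      x = x' ∧ y = y' ∧ u.count x = u'.count x ∧ u.count y = u'.count y) :=
  ⟨connected n, fun A w => hty_nil A w, fun A w => exists_prodConj A w,
    fun _ _ _ _ _ _ _ _ _ _ h h' ha hb => flip_unique h h' ha hb⟩

end Pool.Agent.Results.MP_8f97c4_co.FlipComplexSimplyConnected
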